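import Pool.Agent.H39R2.GonP.Defs
import Pool.Agent.H39R2.Gon.Main

/-!
# Comparison of the two sets of definitions
-/

namespace GonP

open scoped TensorProduct

/-- additive equivalences are `ℤ`-linear, for any module structures -/
def toLin {A A' : Type} [AddCommGroup A] [AddCommGroup A'] [Module ℤ A] [Module ℤ A'] (e : A ≃+ A') :
    A ≃ₗ[ℤ] A' :=
  { e with
    map_smul' := fun n x => by
      have h1 := Int.cast_smul_eq_zsmul ℤ n x
      have h2 := Int.cast_smul_eq_zsmul ℤ n (e x)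
      simp only [Int.cast_id] at h1 h2
      have h3 := map_zsmul e n x
      exact (congrArg e.toFun h1).trans (h3.trans h2.symm) }

@[simp] theorem toLin_apply {A A' : Type} [AddCommGroup A] [AddCommGroup A'] [Module ℤ A]
    [Module ℤ A'] (e : A ≃+ A') (x : A) : toLin e x = e x := rfl

/-- identity `ExtPow V j ≃+ ⋀[ℤ]^j V` -/
noncomputable def eL (V : Type) [AddCommGroup V] (j : ℕ) : ExtPow V j ≃+ (⋀[ℤ]^j V) :=
  AddEquiv.refl (⋀[ℤ]^j V)

theorem eL_wedge (V : Type) [AddCommGroup V] (j : ℕ) (y : Fin j → V) :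
    eL V j (wedge y) = exteriorPower.ιMulti ℤ j y := by
  apply Subtype.ext
  rw [exteriorPower.ιMulti_apply_coe]
  rfl

/-- quotients -/
def fQ {A : Type} [AddCommGroup A] [Module ℤ A] (S : Submodule ℤ A) (S' : AddSubgroup A)
    (h : S' = S.toAddSubgroup) : (A ⧸ S') →+ (A ⧸ S) :=
  QuotientAddGroup.lift S' S.mkQ.toAddMonoidHom (by
    intro x hx
    rw [h] at hx
    exact (Submodule.Quotient.mk_eq_zero S).2 hx)

theorem fQ_bij {A : Type} [AddCommGroup A] [Module ℤ A] (S : Submodule ℤ A) (S' : AddSubgroup A)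
    (h : S' = S.toAddSubgroup) : Function.Bijective (fQ S S' h) := by
  constructor
  · rw [injective_iff_map_eq_zero]
    intro a
    induction a using QuotientAddGroup.induction_on with
    | H z =>
      intro hz
      have hz' : S.mkQ z = 0 := hz
      rw [Submodule.mkQ_apply, Submodule.Quotient.mk_eq_zero] at hz'
      rw [QuotientAddGroup.eq_zero_iff, h]
      exact hz'
  · intro b
    obtain ⟨z, rfl⟩ := S.mkQ_surjective b
    exact ⟨QuotientAddGroup.mk z, rfl⟩

/-- quotients -/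
noncomputable def eQ {A : Type} [AddCommGroup A] [Module ℤ A] (S : Submodule ℤ A) (S' : AddSubgroup A)
    (h : S' = S.toAddSubgroup) : Quo A S' ≃+ (A ⧸ S) :=
  AddEquiv.ofBijective (fQ S S' h) (fQ_bij S S' h)

theorem eQ_toQuo {A : Type} [AddCommGroup A] [Module ℤ A] (S : Submodule ℤ A) (S' : AddSubgroup A)
    (h : S' = S.toAddSubgroup) (a : A) : eQ S S' h (toQuo S' a) = S.mkQ a := rfl

theorem map_inv {A A' B B' : Type} [AddCommGroup A] [AddCommGroup A'] [AddCommGroup B]
    [AddCommGroup B'] [Module ℤ A] [Module ℤ B] [Module ℤ A'] [Module ℤ B'] (e : A ≃ₗ[ℤ] A')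
    (f : B ≃ₗ[ℤ] B') (z : A ⊗[ℤ] B) :
    TensorProduct.map e.symm.toLinearMap f.symm.toLinearMap
      (TensorProduct.map e.toLinearMap f.toLinearMap z) = z := by
  refine TensorProduct.induction_on z ?_ ?_ ?_
  · rw [map_zero, map_zero]
  · intro a b
    rw [TensorProduct.map_tmul, TensorProduct.map_tmul]
    simp
  · intro a b ha hb
    rw [map_add, map_add, ha, hb]

theorem map_inv' {A A' B B' : Type} [AddCommGroup A] [AddCommGroup A'] [AddCommGroup B]
    [AddCommGroup B'] [Module ℤ A] [Module ℤ B] [Module ℤ A'] [Module ℤ B'] (e : A ≃ₗ[ℤ] A')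
    (f : B ≃ₗ[ℤ] B') (z : A' ⊗[ℤ] B') :
    TensorProduct.map e.toLinearMap f.toLinearMap
      (TensorProduct.map e.symm.toLinearMap f.symm.toLinearMap z) = z := by
  refine TensorProduct.induction_on z ?_ ?_ ?_
  · rw [map_zero, map_zero]
  · intro a b
    rw [TensorProduct.map_tmul, TensorProduct.map_tmul]
    simp
  · intro a b ha hb
    rw [map_add, map_add, ha, hb]

/-- tensor products -/
noncomputable def gT {A A' B B' : Type} [AddCommGroup A] [AddCommGroup A'] [AddCommGroup B]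
    [AddCommGroup B'] [Module ℤ A] [Module ℤ B] [Module ℤ A'] [Module ℤ B'] (e : A ≃ₗ[ℤ] A')
    (f : B ≃ₗ[ℤ] B') : A ⊗[ℤ] B ≃+ A' ⊗[ℤ] B' :=
  { toFun := TensorProduct.map e.toLinearMap f.toLinearMap
    invFun := TensorProduct.map e.symm.toLinearMap f.symm.toLinearMap
    left_inv := map_inv e f
    right_inv := map_inv' e f
    map_add' := map_add (TensorProduct.map e.toLinearMap f.toLinearMap) }

/-- tensor products -/
noncomputable def eTens {A A' B B' : Type} [AddCommGroup A] [AddCommGroup A'] [AddCommGroup B]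
    [AddCommGroup B'] [Module ℤ A'] [Module ℤ B'] (e : A ≃+ A') (f : B ≃+ B') :
    Tens A B ≃+ A' ⊗[ℤ] B' := gT (toLin e) (toLin f)

theorem eTens_tm {A A' B B' : Type} [AddCommGroup A] [AddCommGroup A'] [AddCommGroup B]
    [AddCommGroup B'] [Module ℤ A'] [Module ℤ B'] (e : A ≃+ A') (f : B ≃+ B') (a : A) (b : B) :
    eTens e f (tm a b) = e a ⊗ₜ[ℤ] f b := rfl

/-- extension of scalars -/
noncomputable def eRat {A A' : Type} [AddCommGroup A] [AddCommGroup A'] [Module ℤ A'] (e : A ≃+ A') :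
    TensRat A ≃ₗ[ℚ] ℚ ⊗[ℤ] A' :=
  LinearEquiv.baseChange ℤ ℚ A A' (toLin e)

theorem eRat_toRat {A A' : Type} [AddCommGroup A] [AddCommGroup A'] [Module ℤ A'] (e : A ≃+ A')
    (a : A) : eRat e (toRat a) = (1 : ℚ) ⊗ₜ[ℤ] e a := rfl

variable {F : Type} [Field F]

theorem cl_eq (x : F) : cl x = H39Gon.cl x := rfl

theorem spec_eq (t0 : F) (x : P1 (RatFunc F)) : spec t0 x = H39Gon.spec F t0 x := by
  rcases x with _ | x <;> rfl

theorem lift_eq {A : Type} [AddCommGroup A] (f : P1 F → A) (α : ZP F) :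
    lift f α = Finsupp.linearCombination ℤ f α := by
  rw [Finsupp.linearCombination_apply]; rfl

theorem specZ_eq (t0 : F) (α : ZP (RatFunc F)) : specZ t0 α = H39Gon.specZ F t0 α := by
  unfold specZ H39Gon.specZ lift
  rw [Finsupp.lmapDomain_apply, Finsupp.mapDomain]
  apply Finsupp.sum_congr
  intro x _
  change (α x) • (Finsupp.single (spec t0 x) (1 : ℤ)) = Finsupp.single (H39Gon.spec F t0 x) (α x)
  rw [Finsupp.smul_single, spec_eq]
  simp

theorem relSpan_eq (A : Set (ZP (RatFunc F))) (A' : Submodule ℤ (ZP (RatFunc F)))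
    (h : A = (A' : Set (ZP (RatFunc F)))) : relSpan F A = (H39Gon.relSpan F A').toAddSubgroup := by
  unfold relSpan H39Gon.relSpan
  rw [Submodule.span_int_eq_addSubgroupClosure]
  congr 2
  ext β
  simp only [Set.mem_image, Set.mem_ofPred_eq]
  rw [h]
  constructor
  · rintro ⟨α, hα, rfl⟩
    exact ⟨α, hα, by rw [specZ_eq, specZ_eq]⟩
  · rintro ⟨α, hα, rfl⟩
    exact ⟨α, hα, by rw [specZ_eq, specZ_eq]⟩

theorem delta2_eq (α : ZP F) : eL (UV F) 2 (delta2 F α) = H39Gon.delta2 F α := by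
  unfold delta2 H39Gon.delta2
  rw [lift_eq, Finsupp.linearCombination_apply, Finsupp.linearCombination_apply, Finsupp.sum,
    Finsupp.sum, map_sum]
  apply Finset.sum_congr rfl
  intro x _
  rw [map_zsmul]
  rcases x with _ | x
  · exact congrArg (fun w => α none • w) (map_zero (eL (UV F) 2))
  · exact congrArg (fun w => α (some x) • w) (eL_wedge _ _ _)

theorem A2_eq : A2 F = (LinearMap.ker (H39Gon.delta2 F) : Set (ZP F)) := by
  ext α
  rw [SetLike.mem_coe, LinearMap.mem_ker, ← delta2_eq]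
  simp [A2]

theorem deltaS_eq (S : Submodule ℤ (ZP F)) (S' : AddSubgroup (ZP F)) (h : S' = S.toAddSubgroup)
    (α : ZP F) : eTens (eQ S S' h) (AddEquiv.refl (UV F)) (deltaS F S' α) = H39Gon.deltaS F S α := by
  unfold deltaS H39Gon.deltaS
  rw [lift_eq, Finsupp.linearCombination_apply, Finsupp.linearCombination_apply, Finsupp.sum,
    Finsupp.sum, map_sum]
  apply Finset.sum_congr rfl
  intro x _
  rw [map_zsmul]
  congr 1
  rcases x with _ | x
  · exact map_zero _
  · exact eTens_tm _ _ _ _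

theorem AS_eq (S : Submodule ℤ (ZP F)) (S' : AddSubgroup (ZP F)) (h : S' = S.toAddSubgroup) :
    AS F S' = (LinearMap.ker (H39Gon.deltaS F S) : Set (ZP F)) := by
  ext α
  rw [SetLike.mem_coe, LinearMap.mem_ker, ← deltaS_eq S S' h]
  simp [AS]

theorem RR_eq (n : ℕ) : ∀ (F : Type) [Field F], RR n F = (H39Gon.R (n + 2) F).toAddSubgroup := by
  induction n with
  | zero => intro F _; exact relSpan_eq _ _ A2_eq
  | succ n ih => intro F _; exact relSpan_eq _ _ (AS_eq _ _ (ih (RatFunc F)))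

theorem R_eq (n : ℕ) : R (n + 2) F = (H39Gon.R (n + 2) F).toAddSubgroup := by
  unfold R
  rw [if_neg (by omega)]
  exact RR_eq n F

/-- comparison of the terms of the complexes -/
noncomputable def eT (F : Type) [Field F] (n j : ℕ) : TQ F (n + 2) j ≃ₗ[ℚ] H39Gon.TQ F (n + 2) j :=
  eRat (eTens (eQ (H39Gon.R (n + 2) F) (R (n + 2) F) (R_eq n)) (eL (UV F) j))

theorem eT_tq (n j : ℕ) (x : P1 F) (y : Fin j → UV F) :
    eT F n j (tq (n + 2) j x y) = H39Gon.tq F (n + 2) j x y := by
  unfold eT tq H39Gon.tq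
  rw [← eL_wedge]
  rfl

theorem eT_symm_tq (n j : ℕ) (x : P1 F) (y : Fin j → UV F) :
    (eT F n j).symm (H39Gon.tq F (n + 2) j x y) = tq (n + 2) j x y := by
  rw [← eT_tq, LinearEquiv.symm_apply_apply]

/-- comparison of the last terms -/
noncomputable def eLQ (F : Type) [Field F] (j : ℕ) : LQ F j ≃ₗ[ℚ] H39Gon.LQ F j :=
  eRat (eL (UV F) j)

theorem eLQ_lq (j : ℕ) (y : Fin j → UV F) : eLQ F j (lq j y) = H39Gon.lq F j y := by
  unfold eLQ lq H39Gon.lq
  rw [← eL_wedge]
  rfl

theorem eLQ_symm_lq (j : ℕ) (y : Fin j → UV F) : (eLQ F j).symm (H39Gon.lq F j y) = lq j y := by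
  rw [← eLQ_lq, LinearEquiv.symm_apply_apply]

/-- transport of differentials -/
noncomputable def ofD (D : H39Gon.Differentials F) : Differentials F where
  d m j := fun x => (eT F m (j + 1)).symm (D.d m j (eT F (m + 1) j x))
  d_spec m j := by
    refine ⟨⟨fun x y => ?_, fun c x => ?_⟩, fun y => ?_, fun y => ?_, fun x y hx => ?_⟩
    · rw [map_add, map_add, map_add]
    · rw [map_smul, map_smul, map_smul]
    · beta_reduce
      rw [show eT F (m + 1) j (tq (m + 3) j none y) = H39Gon.tq F (m + 3) j none y from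
        eT_tq (m + 1) j none y, D.d_inf, map_zero]
    · beta_reduce
      rw [show eT F (m + 1) j (tq (m + 3) j (some 0) y) = H39Gon.tq F (m + 3) j (some 0) y from
        eT_tq (m + 1) j (some 0) y, D.d_zero, map_zero]
    · beta_reduce
      rw [show eT F (m + 1) j (tq (m + 3) j (some x) y) = H39Gon.tq F (m + 3) j (some x) y from
        eT_tq (m + 1) j (some x) y, D.d_some _ _ _ _ hx]
      exact eT_symm_tq m (j + 1) _ _
  e j := fun x => (eLQ F (j + 2)).symm (D.e j (eT F 0 j x))
  e_spec j := by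
    refine ⟨⟨fun x y => ?_, fun c x => ?_⟩, fun y => ?_, fun y => ?_, fun y => ?_,
      fun x y hx hx1 => ?_⟩
    · rw [map_add, map_add, map_add]
    · rw [map_smul, map_smul, map_smul]
    · beta_reduce
      rw [show eT F 0 j (tq 2 j none y) = H39Gon.tq F 2 j none y from
        eT_tq 0 j none y, D.e_inf, map_zero]
    · beta_reduce
      rw [show eT F 0 j (tq 2 j (some 0) y) = H39Gon.tq F 2 j (some 0) y from
        eT_tq 0 j (some 0) y, D.e_zero, map_zero]
    · beta_reduce
      rw [show eT F 0 j (tq 2 j (some 1) y) = H39Gon.tq F 2 j (some 1) y from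
        eT_tq 0 j (some 1) y, D.e_one, map_zero]
    · beta_reduce
      rw [show eT F 0 j (tq 2 j (some x) y) = H39Gon.tq F 2 j (some x) y from
        eT_tq 0 j (some x) y, D.e_some _ _ _ hx hx1]
      exact eLQ_symm_lq (j + 2) _

theorem exact_conj {A A' B B' C C' : Type*} [AddCommGroup A] [AddCommGroup A'] [AddCommGroup B]
    [AddCommGroup B'] [AddCommGroup C] [AddCommGroup C'] [Module ℚ A] [Module ℚ A'] [Module ℚ B]
    [Module ℚ B'] [Module ℚ C] [Module ℚ C'] (a : A ≃ₗ[ℚ] A') (b : B ≃ₗ[ℚ] B') (c : C ≃ₗ[ℚ] C')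
    (f : A' → B') (g : B' → C') (h : Function.Exact f g) :
    Function.Exact (fun x => b.symm (f (a x))) (fun x => c.symm (g (b x))) := by
  intro y
  simp only [LinearEquiv.map_eq_zero_iff]
  rw [h (b y)]
  constructor
  · rintro ⟨x, hx⟩
    exact ⟨a.symm x, by simp [hx]⟩
  · rintro ⟨x, hx⟩
    exact ⟨a x, by rw [← hx]; simp⟩

theorem ofD_acyclic (D : H39Gon.Differentials F) (hD : D.Acyclic) : (ofD D).Acyclic := by
  obtain ⟨h1, h2, h3, h4, h5⟩ := hD
  refine ⟨fun m => ?_, ?_, fun m j => ?_, fun j => ?_, fun j => ?_⟩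
  · exact (eT F m 1).symm.injective.comp ((h1 m).comp (eT F (m + 1) 0).injective)
  · exact (eLQ F 2).symm.injective.comp (h2.comp (eT F 0 0).injective)
  · exact exact_conj (eT F (m + 2) j) (eT F (m + 1) (j + 1)) (eT F m (j + 2)) _ _ (h3 m j)
  · exact exact_conj (eT F 1 j) (eT F 0 (j + 1)) (eLQ F (j + 3)) _ _ (h4 j)
  · exact (eLQ F (j + 2)).symm.surjective.comp ((h5 j).comp (eT F 0 j).surjective)

theorem text_P {N : Type} [AddCommGroup N] [Module ℚ N] (m j : ℕ) (f g : TQ F (m + 2) j → N)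
    (hf : IsLinearMap ℚ f) (hg : IsLinearMap ℚ g)
    (h : ∀ x y, f (tq (m + 2) j x y) = g (tq (m + 2) j x y)) : f = g := by
  have := H39Gon.E2.text ((hf.mk' f) ∘ₗ (eT F m j).symm.toLinearMap)
    ((hg.mk' g) ∘ₗ (eT F m j).symm.toLinearMap) (by
      intro x y
      simp only [LinearMap.comp_apply, LinearEquiv.coe_coe, IsLinearMap.mk'_apply]
      rw [eT_symm_tq]
      exact h x y)
  funext z
  have h2 := LinearMap.congr_fun this (eT F m j z)
  simpa using h2

theorem unique (D D' : Differentials F) : D' = D := by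
  have h1 : D'.d = D.d := by
    funext m j
    have a := D.d_spec m j
    have b := D'.d_spec m j
    apply text_P (m + 1) j _ _ b.1 a.1
    intro x y
    rcases x with _ | x
    · exact (b.2.1 y).trans (a.2.1 y).symm
    · by_cases hx : x = 0
      · subst hx; exact (b.2.2.1 y).trans (a.2.2.1 y).symm
      · exact (b.2.2.2 x y hx).trans (a.2.2.2 x y hx).symm
  have h2 : D'.e = D.e := by
    funext j
    have a := D.e_spec j
    have b := D'.e_spec j
    apply text_P 0 j _ _ b.1 a.1
    intro x y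
    rcases x with _ | x
    · exact (b.2.1 y).trans (a.2.1 y).symm
    · by_cases hx : x = 0
      · subst hx; exact (b.2.2.1 y).trans (a.2.2.1 y).symm
      · by_cases hx1 : x = 1
        · subst hx1; exact (b.2.2.2.1 y).trans (a.2.2.2.1 y).symm
        · exact (b.2.2.2.2 x y hx hx1).trans (a.2.2.2.2 x y hx hx1).symm
  cases D
  cases D'
  simp only at h1 h2
  subst h1
  subst h2
  rfl

end GonP
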