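import Mathlib

/-!
# Goncharov's groups `B_n(F)` and the polylogarithmic complexes `Γ(F,n) ⊗ ℚ` (definitions)
-/

namespace GonP

open scoped TensorProduct

/-! ### tensor products, exterior powers and quotients of abelian groups -/

/-- `A ⊗_ℤ B` -/
def Tens (A B : Type) [AddCommGroup A] [AddCommGroup B] : Type := A ⊗[ℤ] B

noncomputable instance (A B : Type) [AddCommGroup A] [AddCommGroup B] : AddCommGroup (Tens A B) :=
  TensorProduct.addCommGroup (R := ℤ) (M := A) (N := B)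

/-- `a ⊗ b` -/
noncomputable def tm {A B : Type} [AddCommGroup A] [AddCommGroup B] (a : A) (b : B) : Tens A B :=
  a ⊗ₜ[ℤ] b

/-- `A ⊗_ℤ ℚ` -/
def TensRat (A : Type) [AddCommGroup A] : Type := ℚ ⊗[ℤ] A

noncomputable instance (A : Type) [AddCommGroup A] : AddCommGroup (TensRat A) :=
  TensorProduct.addCommGroup (R := ℤ) (M := ℚ) (N := A)

noncomputable instance (A : Type) [AddCommGroup A] : Module ℚ (TensRat A) :=
  TensorProduct.leftModule

/-- `a ⊗ 1 ∈ A ⊗ ℚ` -/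
noncomputable def toRat {A : Type} [AddCommGroup A] (a : A) : TensRat A := (1 : ℚ) ⊗ₜ[ℤ] a

/-- `Λ^j V` (over `ℤ`) -/
def ExtPow (V : Type) [AddCommGroup V] (j : ℕ) : Type := ⋀[ℤ]^j V

noncomputable instance (V : Type) [AddCommGroup V] (j : ℕ) : AddCommGroup (ExtPow V j) :=
  Submodule.addCommGroup (⋀[ℤ]^j V)

/-- `y_1 ∧ ... ∧ y_j ∈ Λ^j V` -/
noncomputable def wedge {V : Type} [AddCommGroup V] {j : ℕ} (y : Fin j → V) : ExtPow V j :=
  ⟨ExteriorAlgebra.ιMulti ℤ j y, ExteriorAlgebra.ιMulti_range ℤ j ⟨y, rfl⟩⟩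

/-- `A/S` -/
def Quo (A : Type) [AddCommGroup A] (S : AddSubgroup A) : Type := A ⧸ S

instance (A : Type) [AddCommGroup A] (S : AddSubgroup A) : AddCommGroup (Quo A S) :=
  QuotientAddGroup.Quotient.addCommGroup S

/-- the class of `a` in `A/S` -/
def toQuo {A : Type} [AddCommGroup A] (S : AddSubgroup A) (a : A) : Quo A S :=
  QuotientAddGroup.mk a

/-! ### the groups `B_n(F)` -/

/-- `P^1(F) = F ∪ {∞}`, `none` is `∞`. -/
abbrev P1 (F : Type) : Type := Option F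

/-- `ℤ[P^1_F]`. -/
abbrev ZP (F : Type) : Type := P1 F →₀ ℤ

/-- the generator `{x}` of `ℤ[P^1_F]`. -/
noncomputable def gen {F : Type} (x : P1 F) : ZP F := Finsupp.single x 1

/-- the homomorphism `ℤ[P^1_F] → A` with `{x} ↦ f x`: `∑ n_i {x_i} ↦ ∑ n_i f(x_i)`. -/
noncomputable def lift {F A : Type} [AddCommGroup A] (f : P1 F → A) (α : ZP F) : A :=
  α.sum (fun x n => n • f x)

/-- `F^*`, written additively. -/
abbrev UV (F : Type) [Field F] : Type := Additive Fˣ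

open Classical in
/-- the class of `x` in `F^*` (written additively); by convention `0` (the neutral element)
for `x = 0`. -/
noncomputable def cl {F : Type} [Field F] (x : F) : UV F :=
  if h : x = 0 then 0 else Additive.ofMul (Units.mk0 x h)

open Classical in
/-- value of `f ∈ F(t)` at `t₀ ∈ F`, an element of `P^1(F)`. -/
noncomputable def spec {F : Type} [Field F] (t0 : F) : P1 (RatFunc F) → P1 F
  | none => none
  | some f => if f.denom.eval t0 = 0 then none else some (f.num.eval t0 / f.denom.eval t0)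

/-- specialisation `ℤ[P^1_{F(t)}] → ℤ[P^1_F]`, `α(t) ↦ α(t₀)`. -/
noncomputable def specZ {F : Type} [Field F] (t0 : F) : ZP (RatFunc F) → ZP F :=
  lift (fun f => gen (spec t0 f))

/-- `δ_2{x} = (1-x) ∧ x ∈ Λ²F^*` for `x ≠ 0,1,∞`, and `0` for `x = 0, 1, ∞`. -/
noncomputable def delta2 (F : Type) [Field F] : ZP F → ExtPow (UV F) 2 :=
  lift (fun x => match x with
    | none => 0
    | some x => wedge ![cl (1 - x), cl x])

/-- `δ{x} = {x} ⊗ x ∈ (ℤ[P^1_F]/S) ⊗ F^*` for `x ≠ 0,∞`, and `0` for `x = 0, ∞`. -/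
noncomputable def deltaS (F : Type) [Field F] (S : AddSubgroup (ZP F)) :
    ZP F → Tens (Quo (ZP F) S) (UV F) :=
  lift (fun x => match x with
    | none => 0
    | some y => tm (toQuo S (gen (some y))) (cl y))

/-- the kernel of `δ_2` -/
def A2 (F : Type) [Field F] : Set (ZP F) := {α | delta2 F α = 0}

/-- the kernel of `δ{x} = {x} ⊗ x ∈ (ℤ[P^1_F]/S) ⊗ F^*` -/
def AS (F : Type) [Field F] (S : AddSubgroup (ZP F)) : Set (ZP F) := {α | deltaS F S α = 0}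

/-- The subgroup generated by `{0}`, `{∞}` and all `α(0) - α(1)`, `α ∈ A`, for a subset
`A ⊆ ℤ[P^1_{F(t)}]`. -/
noncomputable def relSpan (F : Type) [Field F] (A : Set (ZP (RatFunc F))) : AddSubgroup (ZP F) :=
  AddSubgroup.closure ({gen (some 0), gen none} ∪ (fun α => specZ 0 α - specZ 1 α) '' A)

/-- `R_1(F)`, generated by `{x} + {y} - {xy}` (`x, y ∈ F^*`), `{0}`, `{∞}`. -/
noncomputable def R1 (F : Type) [Field F] : AddSubgroup (ZP F) :=
  AddSubgroup.closure ({gen (some 0), gen none} ∪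
    {β | ∃ x y : F, x ≠ 0 ∧ y ≠ 0 ∧ β = gen (some x) + gen (some y) - gen (some (x * y))})

/-- `R_2(F)`, generated by `{0}`, `{∞}` and `α(0) - α(1)`, `α(t) ∈ ker δ_2 ⊆ ℤ[P^1_{F(t)}]`. -/
noncomputable def R2 (F : Type) [Field F] : AddSubgroup (ZP F) :=
  relSpan F (A2 (RatFunc F))

/-- `R_{m+1}(F)` in terms of `S = R_m`: generated by `{0}`, `{∞}` and `α(0) - α(1)`,
`α(t) ∈ ker δ_{m+1} ⊆ ℤ[P^1_{F(t)}]`, where `δ_{m+1}{f} = {f}_m ⊗ f`. -/
noncomputable def RStep (S : ∀ (F : Type) [Field F], AddSubgroup (ZP F)) (F : Type) [Field F] :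
    AddSubgroup (ZP F) :=
  relSpan F (AS (RatFunc F) (S (RatFunc F)))

/-- Goncharov's relation groups: `RR n F = R_{n+2}(F)`. -/
noncomputable def RR : ℕ → ∀ (F : Type) [Field F], AddSubgroup (ZP F)
  | 0 => R2
  | (n + 1) => RStep (RR n)

/-- Goncharov's relation groups `R_n(F)` (`n ≥ 1`; the value at `0` is irrelevant). -/
noncomputable def R (n : ℕ) (F : Type) [Field F] : AddSubgroup (ZP F) :=
  if n ≤ 1 then R1 F else RR (n - 2) F

/-- `B_n(F) = ℤ[P^1_F]/R_n(F)`. -/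
abbrev B (n : ℕ) (F : Type) [Field F] : Type := Quo (ZP F) (R n F)

/-! ### the complexes -/

/-- The terms `(B_m(F) ⊗ Λ^j F^*) ⊗ ℚ` of the complexes `Γ(F,n) ⊗ ℚ` (`n = m + j`). -/
def TQ (F : Type) [Field F] (m j : ℕ) : Type := TensRat (Tens (B m F) (ExtPow (UV F) j))

noncomputable instance (F : Type) [Field F] (m j : ℕ) : AddCommGroup (TQ F m j) :=
  instAddCommGroupTensRat (Tens (B m F) (ExtPow (UV F) j))

noncomputable instance (F : Type) [Field F] (m j : ℕ) : Module ℚ (TQ F m j) :=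
  instModuleRatTensRat (Tens (B m F) (ExtPow (UV F) j))

/-- The last terms `Λ^n F^* ⊗ ℚ`. -/
def LQ (F : Type) [Field F] (j : ℕ) : Type := TensRat (ExtPow (UV F) j)

noncomputable instance (F : Type) [Field F] (j : ℕ) : AddCommGroup (LQ F j) :=
  instAddCommGroupTensRat (ExtPow (UV F) j)

noncomputable instance (F : Type) [Field F] (j : ℕ) : Module ℚ (LQ F j) :=
  instModuleRatTensRat (ExtPow (UV F) j)

/-- `({x}_m ⊗ y_1 ∧ ... ∧ y_j) ⊗ 1` in `(B_m(F) ⊗ Λ^j F^*) ⊗ ℚ`. -/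
noncomputable def tq {F : Type} [Field F] (m j : ℕ) (x : P1 F) (y : Fin j → UV F) : TQ F m j :=
  toRat (tm (toQuo (R m F) (gen x)) (wedge y))

/-- `(y_1 ∧ ... ∧ y_j) ⊗ 1` in `Λ^j F^* ⊗ ℚ`. -/
noncomputable def lq {F : Type} [Field F] (j : ℕ) (y : Fin j → UV F) : LQ F j :=
  toRat (wedge y)

/-- `d` is the differential `(B_{m+3}(F) ⊗ Λ^j F^*)_ℚ → (B_{m+2}(F) ⊗ Λ^{j+1} F^*)_ℚ`. -/
def IsD {F : Type} [Field F] (m j : ℕ) (d : TQ F (m + 3) j → TQ F (m + 2) (j + 1)) : Prop :=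
  IsLinearMap ℚ d ∧ (∀ y, d (tq (m + 3) j none y) = 0) ∧ (∀ y, d (tq (m + 3) j (some 0) y) = 0) ∧
  ∀ (x : F) y, x ≠ 0 → d (tq (m + 3) j (some x) y) = tq (m + 2) (j + 1) (some x) (Fin.cons (cl x) y)

/-- `e` is the differential `(B_2(F) ⊗ Λ^j F^*)_ℚ → (Λ^{j+2} F^*)_ℚ`. -/
def IsE {F : Type} [Field F] (j : ℕ) (e : TQ F 2 j → LQ F (j + 2)) : Prop :=
  IsLinearMap ℚ e ∧ (∀ y, e (tq 2 j none y) = 0) ∧ (∀ y, e (tq 2 j (some 0) y) = 0) ∧
  (∀ y, e (tq 2 j (some 1) y) = 0) ∧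
  ∀ (x : F) y, x ≠ 0 → x ≠ 1 →
    e (tq 2 j (some x) y) = lq (j + 2) (Fin.cons (cl (1 - x)) (Fin.cons (cl x) y))

/-- The differentials of all the complexes `Γ(F,n) ⊗ ℚ`, `n ≥ 2`: the term of degree `i ≤ n - 1`
of `Γ(F,n) ⊗ ℚ` is `TQ F (n - i + 1) (i - 1)`, the term of degree `n` is `LQ F n`. -/
structure Differentials (F : Type) [Field F] where
  /-- `(B_{m+3}(F) ⊗ Λ^j F^*)_ℚ → (B_{m+2}(F) ⊗ Λ^{j+1} F^*)_ℚ` -/
  d : ∀ m j : ℕ, TQ F (m + 3) j → TQ F (m + 2) (j + 1)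
  d_spec : ∀ m j, IsD m j (d m j)
  /-- `(B_2(F) ⊗ Λ^j F^*)_ℚ → (Λ^{j+2} F^*)_ℚ` -/
  e : ∀ j : ℕ, TQ F 2 j → LQ F (j + 2)
  e_spec : ∀ j, IsE j (e j)

/-- All the complexes `Γ(F,n) ⊗ ℚ`, `n ≥ 2`, are acyclic. -/
def Differentials.Acyclic {F : Type} [Field F] (D : Differentials F) : Prop :=
  (∀ m, Function.Injective (D.d m 0)) ∧ Function.Injective (D.e 0) ∧
  (∀ m j, Function.Exact (D.d (m + 1) j) (D.d m (j + 1))) ∧
  (∀ j, Function.Exact (D.d 0 j) (D.e (j + 1))) ∧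
  (∀ j, Function.Surjective (D.e j))

end GonP
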